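import Mathlib

set_option autoImplicit false

namespace Pool.Agent.Results.MP_16f3b0_al.NoSeries

/-- three-dimensional algebra over the field with two elements, basis a, b, c, with
a a = c, a b = a, a c = b, b b = b, c a = b and the other products of basis elements zero -/
def A : Type := ZMod 2 × ZMod 2 × ZMod 2

instance : AddCommGroup A := inferInstanceAs (AddCommGroup (ZMod 2 × ZMod 2 × ZMod 2))
instance : DecidableEq A := inferInstanceAs (DecidableEq (ZMod 2 × ZMod 2 × ZMod 2))
instance : Fintype A := inferInstanceAs (Fintype (ZMod 2 × ZMod 2 × ZMod 2))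

instance : NonUnitalNonAssocRing A :=
  { (inferInstance : AddCommGroup A) with
    mul := fun x y => (x.1 * y.2.1, x.1 * y.2.2 + x.2.1 * y.2.1 + x.2.2 * y.1, x.1 * y.1)
    left_distrib := by decide +kernel
    right_distrib := by decide +kernel
    zero_mul := by decide +kernel
    mul_zero := by decide +kernel }

def a : A := (1, 0, 0)
def b : A := (0, 1, 0)

theorem span3 (S : AddSubgroup A) (h1 : a ∈ S) (h2 : b ∈ S) (h3 : a * a ∈ S) (x : A) : x ∈ S := by
  have : ∀ x : A, x = 0 ∨ x = a ∨ x = b ∨ x = a * a ∨ x = a + b ∨ x = a + a * a ∨ x = b + a * a ∨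
    x = a + b + a * a := by decide +kernel
  rcases this x with h | h | h | h | h | h | h | h <;> rw [h]
  · exact zero_mem _
  · exact h1
  · exact h2
  · exact h3
  · exact add_mem h1 h2
  · exact add_mem h1 h3
  · exact add_mem h2 h3
  · exact add_mem (add_mem h1 h2) h3

theorem simple (I : TwoSidedIdeal A) : I = ⊥ ∨ I = ⊤ := by
  by_cases h : I = ⊥
  · exact Or.inl h
  right
  obtain ⟨x, hx, h0⟩ : ∃ x ∈ I, x ≠ 0 := by
    by_contra hc
    push Not at hc
    exact h (eq_bot_iff.2 fun x hx => (TwoSidedIdeal.mem_bot _).2 (hc x hx))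
  have gen : ∀ x : A, x ≠ 0 → ∃ p q : A, p * (q * x) = a ∨ p * x = a := by decide +kernel
  have ha : a ∈ I := by
    obtain ⟨p, q, h | h⟩ := gen x h0
    · exact h ▸ I.mul_mem_left _ _ (I.mul_mem_left _ _ hx)
    · exact h ▸ I.mul_mem_left _ _ hx
  have hb : b ∈ I := by
    have : a * (a * a) = b := by decide +kernel
    exact this ▸ I.mul_mem_right _ _ ha
  exact eq_top_iff.2 fun y _ =>
    span3 I.ringCon.toAddCon.addSubgroup ha hb (I.mul_mem_left _ _ ha) y

/-- There is a right alternative ring on two generators with no finite chain of ideals from `0` to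
the whole ring whose successive quotients are associative. -/
theorem result : ∃ (R : Type) (_ : NonUnitalNonAssocRing R),
    (∀ x y : R, (x * y) * y = x * (y * y)) ∧
    (∃ p q : R, NonUnitalSubring.closure {p, q} = ⊤) ∧
    ¬ ∃ (n : ℕ) (I : ℕ → TwoSidedIdeal R), I 0 = ⊥ ∧ I n = ⊤ ∧ (∀ k < n, I k ≤ I (k + 1)) ∧
      ∀ k < n, ∀ x ∈ I (k + 1), ∀ y ∈ I (k + 1), ∀ z ∈ I (k + 1),
        (x * y) * z - x * (y * z) ∈ I k := by
  refine ⟨A, inferInstance, by decide +kernel, ⟨a, b, eq_top_iff.2 fun y _ => ?_⟩, ?_⟩
  · have ha : a ∈ NonUnitalSubring.closure {a, b} := NonUnitalSubring.subset_closure (by simp)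
    have hb : b ∈ NonUnitalSubring.closure {a, b} := NonUnitalSubring.subset_closure (by simp)
    exact span3 (NonUnitalSubring.closure {a, b}).toAddSubgroup ha hb
      ((NonUnitalSubring.closure {a, b}).mul_mem ha ha) y
  · rintro ⟨n, I, h0, hn, -, h⟩
    have : ∀ k ≤ n, I k = ⊥ := by
      intro k
      induction k with
      | zero => exact fun _ => h0
      | succ k ih =>
        intro hk
        rcases simple (I (k + 1)) with e | e
        · exact e
        · have := h k (by omega) a (by rw [e]; trivial) b (by rw [e]; trivial) a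
            (by rw [e]; trivial)
          rw [ih (by omega), TwoSidedIdeal.mem_bot] at this
          exact absurd this (by decide +kernel)
    have h1 : a ∈ I n := by rw [hn]; trivial
    rw [this n le_rfl, TwoSidedIdeal.mem_bot] at h1
    exact absurd h1 (by decide +kernel)

end Pool.Agent.Results.MP_16f3b0_al.NoSeries
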